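import Pool.Agent.Helper60.PF.Defs

set_option autoImplicit false

namespace Pool.Agent.Helper60.PF

theorem flatForm : FlatForm := by
  intro d κ Q hQ hW
  obtain ⟨⟨p0, hp0⟩, hfr⟩ := hQ
  have hp0' : p0 ∈ Q := hp0
  have hmem : ∀ p, p ∈ Q ↔ p - p0 ∈ Q.direction := fun p => by
    have := AffineSubspace.vsub_right_mem_direction_iff_mem hp0' p
    rw [vsub_eq_sub] at this
    exact this.symm
  have hadd : ∀ x ∈ Q.direction, x + p0 ∈ Q := by
    intro x hx
    rw [hmem, add_sub_cancel_right]
    exact hx
  rcases hW with h | h | ⟨t, ht, h⟩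
  · left
    have hD : Q.direction ≤ LinearMap.ker (LinearMap.fst ℝ (E d) (E d)) := by
      intro x hx
      rw [LinearMap.mem_ker, LinearMap.fst_apply]
      have := h _ (hadd x hx) _ hp0'
      simpa using this
    have hk : Module.finrank ℝ (LinearMap.ker (LinearMap.fst ℝ (E d) (E d))) = d := by
      rw [LinearMap.ker_fst, LinearMap.finrank_range_of_inj LinearMap.inr_injective]
      simp
    have hE : Q.direction = LinearMap.ker (LinearMap.fst ℝ (E d) (E d)) :=
      Submodule.eq_of_le_of_finrank_eq hD (by rw [hfr, hk])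
    refine ⟨p0.1, fun p => ?_⟩
    rw [hmem, hE, LinearMap.mem_ker, LinearMap.fst_apply, Prod.fst_sub, sub_eq_zero]
  · right; left
    have hD : Q.direction ≤ LinearMap.ker (LinearMap.snd ℝ (E d) (E d)) := by
      intro x hx
      rw [LinearMap.mem_ker, LinearMap.snd_apply]
      have := h _ (hadd x hx) _ hp0'
      simpa using this
    have hk : Module.finrank ℝ (LinearMap.ker (LinearMap.snd ℝ (E d) (E d))) = d := by
      rw [LinearMap.ker_snd, LinearMap.finrank_range_of_inj LinearMap.inl_injective]
      simp
    have hE : Q.direction = LinearMap.ker (LinearMap.snd ℝ (E d) (E d)) :=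
      Submodule.eq_of_le_of_finrank_eq hD (by rw [hfr, hk])
    refine ⟨p0.2, fun p => ?_⟩
    rw [hmem, hE, LinearMap.mem_ker, LinearMap.snd_apply, Prod.snd_sub, sub_eq_zero]
  · right; right
    have hb : ∀ x ∈ Q.direction, t * ‖x.1‖ ≤ ‖x.2‖ ∧ ‖x.2‖ ≤ κ * t * ‖x.1‖ := by
      intro x hx
      have := h _ (hadd x hx) _ hp0'
      simpa using this
    let f : Q.direction →ₗ[ℝ] E d := (LinearMap.fst ℝ (E d) (E d)).comp Q.direction.subtype
    have hf : Function.Injective f := by
      rw [← LinearMap.ker_eq_bot, LinearMap.ker_eq_bot']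
      intro x hx
      have hx1 : (x : E d × E d).1 = 0 := hx
      have h2 := (hb x x.2).2
      rw [hx1, norm_zero, mul_zero] at h2
      have hx2 : (x : E d × E d).2 = 0 := norm_le_zero_iff.1 h2
      exact Subtype.ext (Prod.ext hx1 hx2)
    have hdim : Module.finrank ℝ Q.direction = Module.finrank ℝ (E d) := by
      rw [hfr]; simp
    let e : Q.direction ≃ₗ[ℝ] E d := LinearMap.linearEquivOfInjective f hf hdim
    have he : ∀ x : Q.direction, e x = (x : E d × E d).1 := fun x => rfl
    let M : E d →ₗ[ℝ] E d := ((LinearMap.snd ℝ (E d) (E d)).comp Q.direction.subtype).comp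
      e.symm.toLinearMap
    have hM : ∀ x : E d, M x = ((e.symm x : Q.direction) : E d × E d).2 := fun x => rfl
    have hes : ∀ x : E d, ((e.symm x : Q.direction) : E d × E d).1 = x := by
      intro x
      rw [← he, LinearEquiv.apply_symm_apply]
    have hiff : ∀ q : E d × E d, q ∈ Q.direction ↔ q.2 = M q.1 := by
      intro q
      constructor
      · intro hq
        have h1 : e ⟨q, hq⟩ = q.1 := rfl
        rw [hM, ← h1, LinearEquiv.symm_apply_apply]
      · intro hq
        have h1 : q = ((e.symm q.1 : Q.direction) : E d × E d) := by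
          refine Prod.ext (hes q.1).symm ?_
          rw [hq, hM]
        rw [h1]
        exact (e.symm q.1).2
    refine ⟨(M, p0.2 - M p0.1), ⟨t, ht, fun x => ?_⟩, fun p => ?_⟩
    · have := hb _ (e.symm x).2
      rw [hes, ← hM] at this
      exact this
    · rw [hmem, hiff, Prod.snd_sub, Prod.fst_sub, map_sub]
      constructor
      · intro h
        simp only
        have : p.2 = (p.2 - p0.2) + p0.2 := by abel
        rw [this, h]
        abel
      · intro h
        simp only at h
        rw [h]
        abel

end Pool.Agent.Helper60.PF
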