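import Pool.Agent.Helper60.PF.Defs

set_option autoImplicit false

namespace Pool.Agent.Helper60.PF

open Classical in
/-- pairs in `A × A` with few points of `A` in the sector -/
noncomputable def closeP {d N : ℕ} (c : E d → Fin N) (A : Finset (E d)) (S : ℝ) :
    Finset (E d × E d) := (A ×ˢ A).filter (fun z => z.2 ≠ z.1 ∧ (rk c A z.1 z.2 : ℝ) ≤ S)

theorem closeP_card (h4 : FewClose) {d N : ℕ} (c : E d → Fin N) (A : Finset (E d)) (S : ℝ)
    (hS : 0 ≤ S) : ((closeP c A S).card : ℝ) ≤ A.card * (N * S) := by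
  classical
  have h1 : (closeP c A S).card = ∑ o ∈ A, ((A.filter (fun a => a ≠ o ∧ (rk c A o a : ℝ) ≤ S)).card) := by
    unfold closeP
    rw [Finset.card_filter, Finset.sum_product]
    refine Finset.sum_congr rfl fun o _ => ?_
    rw [Finset.card_filter]
  rw [h1, Nat.cast_sum]
  calc (∑ o ∈ A, ((A.filter (fun a => a ≠ o ∧ (rk c A o a : ℝ) ≤ S)).card : ℝ))
      ≤ ∑ _o ∈ A, ((N : ℝ) * S) := by
        refine Finset.sum_le_sum fun o _ => ?_
        convert h4 d N c A o S hS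
    _ = A.card * (N * S) := by rw [Finset.sum_const, nsmul_eq_mul]

theorem richBound (h2 : Classes) (h4 : FewClose) (h5 : PerFlat) : RichBound := by
  classical
  intro d κ hκ
  obtain ⟨N, c, hc⟩ := h2 d (1 / κ) (by positivity)
  have hC0 : (0 : ℝ) < 5 ^ d + 1 := by positivity
  refine ⟨32 * (((N + 1 : ℕ) : ℝ)) ^ 2 * (5 ^ d + 1) ^ 2, by positivity, ?_⟩
  intro G A B hW hinj k hk
  have hk0 : (0 : ℝ) < k := by
    have : 0 < k := by omega
    exact_mod_cast this
  set SA : ℝ := 4 * (5 ^ d + 1) * A.card / k with hSA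
  set SB : ℝ := 4 * (5 ^ d + 1) * B.card / k with hSB
  have hSA0 : 0 ≤ SA := by positivity
  have hSB0 : 0 ≤ SB := by positivity
  set R := G.filter (fun m => k ≤ (onG A B m).card) with hR
  -- the pairs on a rich graph
  let P : (E d →ₗ[ℝ] E d) × E d → Finset (E d × E d) := fun m =>
    (A ×ˢ A).filter (fun z => z.1 ≠ z.2 ∧ m.1 z.1 + m.2 ∈ B ∧ m.1 z.2 + m.2 ∈ B ∧
      (rk c A z.1 z.2 : ℝ) ≤ SA ∧ (rk c B (m.1 z.1 + m.2) (m.1 z.2 + m.2) : ℝ) ≤ SB)
  have hP : ∀ m ∈ R, (k : ℝ) / 2 ≤ ((P m).card : ℝ) := by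
    intro m hm
    obtain ⟨hmG, hmk⟩ := Finset.mem_filter.1 hm
    obtain ⟨t, ht, hM⟩ := hW m hmG
    have hmk' : (k : ℝ) ≤ ((onG A B m).card : ℝ) := by exact_mod_cast hmk
    have h6 := h5 d (N + 1) (1 / κ) κ t c hc (by positivity) ht hκ
      (by rw [one_div, inv_mul_cancel₀ (by positivity)]) m.1 hM m.2 A B
      (by
        have : 2 ≤ (onG A B m).card := by omega
        unfold onG at this
        convert this)
    have hcard : (A.filter (fun a => m.1 a + m.2 ∈ B)).card = (onG A B m).card := by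
      unfold onG
      congr
    refine le_trans ?_ (le_trans h6 ?_)
    · rw [show (Finset.filter (fun a => m.1 a + m.2 ∈ B) A).card = (onG A B m).card from hcard]
      linarith
    · refine Nat.cast_le.2 (Finset.card_le_card ?_)
      intro z hz
      rw [Finset.mem_filter] at hz
      obtain ⟨hz0, hz1, hz2, hz3, hz4, hz5⟩ := hz
      rw [show (Finset.filter (fun a => m.1 a + m.2 ∈ B) A).card = (onG A B m).card from hcard]
        at hz4 hz5
      refine Finset.mem_filter.2 ⟨hz0, hz1, hz2, hz3, ?_, ?_⟩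
      · rw [hSA, le_div_iff₀ hk0]
        refine le_trans ?_ hz4
        exact mul_le_mul_of_nonneg_left hmk' (Nat.cast_nonneg _)
      · rw [hSB, le_div_iff₀ hk0]
        refine le_trans ?_ hz5
        exact mul_le_mul_of_nonneg_left hmk' (Nat.cast_nonneg _)
  -- the map into pairs of pairs
  have hcount : (R.sigma P).card ≤ (closeP c A SA ×ˢ closeP c B SB).card := by
    refine Finset.card_le_card_of_injOn
      (fun x => (x.2, (x.1.1 x.2.1 + x.1.2, x.1.1 x.2.2 + x.1.2))) ?_ ?_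
    · intro x hx
      obtain ⟨hx1, hx2⟩ := Finset.mem_sigma.1 (Finset.mem_coe.1 hx)
      obtain ⟨hz0, hz1, hz2, hz3, hz4, hz5⟩ := Finset.mem_filter.1 hx2
      obtain ⟨ha, hb⟩ := Finset.mem_product.1 hz0
      have hmG := (Finset.mem_filter.1 hx1).1
      obtain ⟨t, ht, hM⟩ := hW x.1 hmG
      refine Finset.mem_coe.2 (Finset.mem_product.2 ⟨Finset.mem_filter.2 ⟨hz0, Ne.symm hz1, hz4⟩,
        Finset.mem_filter.2 ⟨Finset.mem_product.2 ⟨hz2, hz3⟩, ?_, hz5⟩⟩)
      intro h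
      simp only [add_left_inj] at h
      have h7 : x.1.1 (x.2.2 - x.2.1) = 0 := by rw [map_sub, h, sub_self]
      have h8 := (hM (x.2.2 - x.2.1)).1
      rw [h7, norm_zero] at h8
      have h9 : ‖x.2.2 - x.2.1‖ ≤ 0 := by
        by_contra hcon
        have := mul_pos ht (not_le.1 hcon)
        linarith
      exact hz1 (sub_eq_zero.1 (norm_le_zero_iff.1 h9)).symm
    · intro x hx y hy h
      obtain ⟨hx1, hx2⟩ := Finset.mem_sigma.1 (Finset.mem_coe.1 hx)
      obtain ⟨hy1, _⟩ := Finset.mem_sigma.1 (Finset.mem_coe.1 hy)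
      obtain ⟨_, hz1, _⟩ := Finset.mem_filter.1 hx2
      obtain ⟨m, z⟩ := x
      obtain ⟨m', z'⟩ := y
      simp only [Prod.mk.injEq] at h
      obtain ⟨rfl, h1, h2'⟩ := h
      have hmm : m = m' := by
        by_contra hne
        exact hz1 (hinj m (Finset.mem_filter.1 hx1).1 m' (Finset.mem_filter.1 hy1).1 hne _ _ h1 h2')
      subst hmm
      rfl
  have hsig : (R.card : ℝ) * (k / 2) ≤ ((R.sigma P).card : ℝ) := by
    rw [Finset.card_sigma, Nat.cast_sum]
    calc (R.card : ℝ) * (k / 2) = ∑ _m ∈ R, ((k : ℝ) / 2) := by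
          rw [Finset.sum_const, nsmul_eq_mul]
      _ ≤ _ := Finset.sum_le_sum hP
  have hT : ((closeP c A SA ×ˢ closeP c B SB).card : ℝ) ≤
      (A.card * (((N + 1 : ℕ) : ℝ) * SA)) * (B.card * (((N + 1 : ℕ) : ℝ) * SB)) := by
    rw [Finset.card_product, Nat.cast_mul]
    exact mul_le_mul (closeP_card h4 c A SA hSA0) (closeP_card h4 c B SB hSB0)
      (Nat.cast_nonneg _) (by positivity)
  have hfin : (R.card : ℝ) * (k / 2) ≤
      (A.card * (((N + 1 : ℕ) : ℝ) * SA)) * (B.card * (((N + 1 : ℕ) : ℝ) * SB)) :=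
    hsig.trans ((Nat.cast_le.2 hcount).trans hT)
  have e1 : (A.card * (((N + 1 : ℕ) : ℝ) * SA)) * (B.card * (((N + 1 : ℕ) : ℝ) * SB)) * (2 * k ^ 2)
      = 32 * (((N + 1 : ℕ) : ℝ)) ^ 2 * (5 ^ d + 1) ^ 2 * ((A.card : ℝ) * B.card) ^ 2 := by
    rw [hSA, hSB]
    field_simp
    ring
  have e2 : (R.card : ℝ) * (k / 2) * (2 * k ^ 2) = (R.card : ℝ) * (k : ℝ) ^ 3 := by ring
  rw [← e1, ← e2]
  exact mul_le_mul_of_nonneg_right hfin (by positivity)

end Pool.Agent.Helper60.PF
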